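import Pool.Agent.Y504.CO.Stm7

/-!
# Project CO, job CI: iterates and their derivatives depend continuously on the diffeomorphism

`cda2` and `close1` are adapted from `Pool.Agent.Y429.CO.PE`.
-/

set_option autoImplicit false

open scoped Manifold ContDiff Topology
open Filter Set Metric

universe u

namespace Pool.Agent.Y675.CO.CI

open Pool.Agent.H718R2.G Pool.Agent.TH80.OMS Pool.Agent.Y504.CO

/-- a smooth map in two charts -/
theorem cdm {n : ℕ} {N : Type u} [TopologicalSpace N] [ChartedSpace (V n) N] {h : N → N}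
    (hh : ContMDiff (𝓡 n) (𝓡 n) 1 h) {ψ ψ' : OpenPartialHomeomorph N (V n)}
    (hψ : ψ ∈ IsManifold.maximalAtlas (𝓡 n) ∞ N) (hψ' : ψ' ∈ IsManifold.maximalAtlas (𝓡 n) ∞ N)
    {x : V n} (hx : x ∈ ψ.target) (hx' : h (ψ.symm x) ∈ ψ'.source) :
    ContDiffAt ℝ 1 (fun v => ψ' (h (ψ.symm v))) x := by
  have h1 : ContMDiffAt (𝓡 n) (𝓡 n) 1 ψ.symm x :=
    ((contMDiffOn_symm_of_mem_maximalAtlas hψ).contMDiffAt (ψ.open_target.mem_nhds hx)).of_le
      (by norm_num)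
  have h2 : ContMDiffAt (𝓡 n) (𝓡 n) 1 h (ψ.symm x) := hh.contMDiffAt
  have h3 : ContMDiffAt (𝓡 n) (𝓡 n) 1 ψ' (h (ψ.symm x)) :=
    ((contMDiffOn_of_mem_maximalAtlas hψ').contMDiffAt (ψ'.open_source.mem_nhds hx')).of_le
      (by norm_num)
  exact (contMDiffAt_iff_contDiffAt.1 (h3.comp x (h2.comp x h1)))

theorem smooth1 {n : ℕ} {N : Type u} [TopologicalSpace N] [ChartedSpace (V n) N] {r : ℕ∞}
    (hr : 1 ≤ r) (g : DiffM n N r) : ContMDiff (𝓡 n) (𝓡 n) 1 g :=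
  g.contMDiff.of_le (by exact_mod_cast hr)

theorem smooth_iter {n : ℕ} {N : Type u} [TopologicalSpace N] [ChartedSpace (V n) N] {r : ℕ∞}
    (hr : 1 ≤ r) (g : DiffM n N r) (i : ℕ) : ContMDiff (𝓡 n) (𝓡 n) 1 (g^[i]) := by
  induction i with
  | zero => exact contMDiff_id
  | succ i ih =>
    rw [Function.iterate_succ']
    exact (smooth1 hr g).comp ih

/-- closeness of order 1 -/
theorem close1 {n : ℕ} {f g : V n → V n} {x : V n} {ε : ℝ}
    (h : ∀ m : ℕ, m ≤ 1 → ‖iteratedFDeriv ℝ m f x - iteratedFDeriv ℝ m g x‖ < ε) :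
    ‖f x - g x‖ ≤ ε ∧ ‖fderiv ℝ f x - fderiv ℝ g x‖ ≤ ε := by
  have hε : 0 ≤ ε := (norm_nonneg _).trans (h 0 (by norm_num)).le
  constructor
  · have h0 := (h 0 (by norm_num)).le
    have h1 := (iteratedFDeriv ℝ 0 f x - iteratedFDeriv ℝ 0 g x).le_opNorm (fun _ => (0 : V n))
    have h2 : (iteratedFDeriv ℝ 0 f x - iteratedFDeriv ℝ 0 g x) (fun _ => (0 : V n)) =
        f x - g x := by
      rw [sub_apply, iteratedFDeriv_zero_apply, iteratedFDeriv_zero_apply]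
    rw [h2] at h1
    simpa using h1.trans (by simpa using h0)
  · have h0 := (h 1 le_rfl).le
    refine ContinuousLinearMap.opNorm_le_bound _ hε fun v => ?_
    have h1 := (iteratedFDeriv ℝ 1 f x - iteratedFDeriv ℝ 1 g x).le_opNorm (fun _ => v)
    have h2 : (iteratedFDeriv ℝ 1 f x - iteratedFDeriv ℝ 1 g x) (fun _ => v) =
        (fderiv ℝ f x - fderiv ℝ g x) v := by
      rw [sub_apply, iteratedFDeriv_one_apply, iteratedFDeriv_one_apply]
      rfl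
    rw [h2] at h1
    have h3 : ∏ _i : Fin 1, ‖v‖ = ‖v‖ := by simp
    rw [h3] at h1
    exact h1.trans (mul_le_mul_of_nonneg_right h0 (norm_nonneg _))

theorem openInter {n : ℕ} {N : Type u} [TopologicalSpace N] [ChartedSpace (V n) N] {r : ℕ∞}
    {U1 U2 : Set (DiffM n N r)} (h1 : IsOpen[strongTop n N r] U1)
    (h2 : IsOpen[strongTop n N r] U2) : IsOpen[strongTop n N r] (U1 ∩ U2) := by
  let _ := strongTop n N r
  exact IsOpen.inter h1 h2

/-- one step -/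
theorem one {n : ℕ} {N : Type u} [TopologicalSpace N] [T2Space N] [ChartedSpace (V n) N]
    {r : ℕ∞} (hr : 1 ≤ r) (f : DiffM n N r)
    {φ ψ : OpenPartialHomeomorph N (V n)}
    (hφ : φ ∈ IsManifold.maximalAtlas (𝓡 n) ∞ N) (hψ : ψ ∈ IsManifold.maximalAtlas (𝓡 n) ∞ N)
    {z : N} (hz : z ∈ φ.source) (hfz : f z ∈ ψ.source) {B : Set N} (hB : B ∈ 𝓝 (f z))
    {δ : ℝ} (hδ : 0 < δ) :
    ∃ W ∈ 𝓝 z, ∃ U : Set (DiffM n N r), IsOpen[strongTop n N r] U ∧ f ∈ U ∧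
      ∀ g ∈ U, ∀ y ∈ W, y ∈ φ.source ∧ g y ∈ ψ.source ∧ g y ∈ B ∧
        ‖fderiv ℝ (fun v => ψ (g (φ.symm v))) (φ y) -
          fderiv ℝ (fun v => ψ (f (φ.symm v))) (φ z)‖ < δ := by
  obtain ⟨T, hT⟩ : ∃ T : V n → V n, T = fun v => ψ (f (φ.symm v)) := ⟨_, rfl⟩
  have ht : φ z ∈ φ.target := φ.map_source hz
  have hsz : φ.symm (φ z) = z := φ.left_inv hz
  have hTz : T (φ z) = ψ (f z) := by
    rw [hT]
    show ψ (f (φ.symm (φ z))) = ψ (f z)
    rw [hsz]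
  -- the radius in the target
  obtain ⟨η, hη, hηB⟩ : ∃ η > 0, ∀ w ∈ ball (ψ (f z)) η, ψ.symm w ∈ B := by
    have c1 : ContinuousAt ψ.symm (ψ (f z)) := ψ.continuousAt_symm (ψ.map_source hfz)
    have c2 : ψ.symm ⁻¹' B ∈ 𝓝 (ψ (f z)) := by
      apply c1.preimage_mem_nhds
      rw [ψ.left_inv hfz]
      exact hB
    exact Metric.mem_nhds_iff.1 c2
  have hcd : ContDiffAt ℝ 1 T (φ z) := by
    rw [hT]
    refine cdm (smooth1 hr f) hφ hψ ht ?_
    rw [hsz]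
    exact hfz
  have hS : {x : V n | x ∈ φ.target ∧ f (φ.symm x) ∈ ψ.source ∧
      ‖fderiv ℝ T x - fderiv ℝ T (φ z)‖ ≤ δ / 4 ∧ ‖T x - T (φ z)‖ ≤ η / 4} ∈ 𝓝 (φ z) := by
    have hcs : ContinuousAt φ.symm (φ z) := φ.continuousAt_symm ht
    have a1 : ∀ᶠ x in 𝓝 (φ z), x ∈ φ.target := φ.open_target.mem_nhds ht
    have a2 : ∀ᶠ x in 𝓝 (φ z), f (φ.symm x) ∈ ψ.source := by
      have c1 : ContinuousAt (fun x => f (φ.symm x)) (φ z) :=
        ContinuousAt.comp (g := f) (f := φ.symm) f.continuous.continuousAt hcs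
      apply c1.eventually
      apply ψ.open_source.mem_nhds
      show f (φ.symm (φ z)) ∈ ψ.source
      rw [hsz]
      exact hfz
    have a3 : ∀ᶠ x in 𝓝 (φ z), ‖fderiv ℝ T x - fderiv ℝ T (φ z)‖ ≤ δ / 4 := by
      have c1 : ContinuousAt (fderiv ℝ T) (φ z) :=
        (hcd.fderiv_right (m := 0) (by norm_num)).continuousAt
      have c2 := (Metric.continuousAt_iff'.1 c1) (δ / 4) (by positivity)
      filter_upwards [c2] with x hx
      rw [dist_eq_norm] at hx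
      exact hx.le
    have a4 : ∀ᶠ x in 𝓝 (φ z), ‖T x - T (φ z)‖ ≤ η / 4 := by
      have c2 := (Metric.continuousAt_iff'.1 hcd.continuousAt) (η / 4) (by positivity)
      filter_upwards [c2] with x hx
      rw [dist_eq_norm] at hx
      exact hx.le
    filter_upwards [a1, a2, a3, a4] with x h1 h2 h3 h4
    exact ⟨h1, h2, h3, h4⟩
  obtain ⟨ρ, hρ, hρS⟩ := Metric.nhds_basis_closedBall.mem_iff.1 hS
  obtain ⟨ε, hεd⟩ : ∃ ε : ℝ, ε = min (δ / 4) (η / 4) := ⟨_, rfl⟩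
  have hε : 0 < ε := by
    rw [hεd]
    exact lt_min (by positivity) (by positivity)
  have hε1 : ε ≤ δ / 4 := by
    rw [hεd]
    exact min_le_left _ _
  have hε2 : ε ≤ η / 4 := by
    rw [hεd]
    exact min_le_right _ _
  let D : StrongData n N :=
    { ι := Unit
      φ := fun _ => φ
      ψ := fun _ => ψ
      K := fun _ => φ.symm '' closedBall (φ z) ρ
      ε := fun _ => ε
      φ_mem := fun _ => hφ
      ψ_mem := fun _ => hψ
      lf := locallyFinite_of_finite _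
      compact := fun _ => (isCompact_closedBall _ _).image_of_continuousOn
        (φ.continuousOn_symm.mono fun x hx => (hρS hx).1)
      sub := by
        rintro _ _ ⟨x, hx, rfl⟩
        exact φ.map_target (hρS hx).1
      pos := fun _ => hε }
  have hgs : ∀ i, ∀ x ∈ D.K i, f x ∈ (D.ψ i).source := by
    rintro i _ ⟨x, hx, rfl⟩
    exact (hρS hx).2.1
  refine ⟨φ.source ∩ φ ⁻¹' ball (φ z) ρ, ?_, strongNbhd D 1 f, ?_, ?_, ?_⟩
  · exact inter_mem (φ.open_source.mem_nhds hz)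
      ((φ.continuousAt hz).preimage_mem_nhds (ball_mem_nhds _ hρ))
  · exact TopologicalSpace.GenerateOpen.basic _ ⟨D, 1, f, by exact_mod_cast hr, hgs, rfl⟩
  · intro i x hx
    refine ⟨hgs i x hx, fun m _ => ?_⟩
    rw [sub_self, norm_zero]
    exact hε
  rintro g hg y ⟨hy, hyb⟩
  have hyb' : φ y ∈ closedBall (φ z) ρ := ball_subset_closedBall hyb
  have hyK : y ∈ D.K () := ⟨φ y, hyb', φ.left_inv hy⟩
  have h1 := hg () y hyK
  have hcl := close1 (f := fun v => ψ (g (φ.symm v))) (g := T) (x := φ y) (ε := ε) (fun m hm => by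
    have h3 := h1.2 m hm
    rw [hT]
    exact h3)
  have hgy : g y ∈ ψ.source := h1.1
  obtain ⟨-, -, h4, h5⟩ := hρS hyb'
  refine ⟨hy, hgy, ?_, ?_⟩
  · have h6 : ψ (g y) ∈ ball (ψ (f z)) η := by
      rw [mem_ball, dist_eq_norm]
      have h7 := hcl.1
      rw [φ.left_inv hy] at h7
      rw [hTz] at h5
      have h8 : ψ (g y) - ψ (f z) = (ψ (g y) - T (φ y)) + (T (φ y) - ψ (f z)) := by abel
      rw [h8]
      exact (norm_add_le _ _).trans_lt (by linarith)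
    have h9 := hηB _ h6
    rwa [ψ.left_inv hgy] at h9
  · have h8 : fderiv ℝ (fun v => ψ (g (φ.symm v))) (φ y) - fderiv ℝ T (φ z) =
        (fderiv ℝ (fun v => ψ (g (φ.symm v))) (φ y) - fderiv ℝ T (φ y)) +
          (fderiv ℝ T (φ y) - fderiv ℝ T (φ z)) := by abel
    rw [← hT, h8]
    exact (norm_add_le _ _).trans_lt (by linarith [hcl.2])

/-- the first part -/
theorem part1 {n : ℕ} {N : Type u} [TopologicalSpace N] [T2Space N] [ChartedSpace (V n) N]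
    [IsManifold (𝓡 n) ∞ N] {r : ℕ∞} (hr : 1 ≤ r) (f : DiffM n N r) (i : ℕ) (x : N) :
    ∀ B : Set N, IsOpen B → f^[i] x ∈ B → ∃ W ∈ 𝓝 x, ∃ U : Set (DiffM n N r),
      IsOpen[strongTop n N r] U ∧ f ∈ U ∧ ∀ g ∈ U, ∀ y ∈ W, g^[i] y ∈ B := by
  induction i with
  | zero =>
    intro B hB hx
    exact ⟨B, hB.mem_nhds hx, univ, @isOpen_univ _ (strongTop n N r), mem_univ _,
      fun g _ y hy => hy⟩
  | succ i ih =>
    intro B hB hx
    rw [Function.iterate_succ_apply'] at hx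
    obtain ⟨W1, hW1, U1, hU1, hf1, h1⟩ := one hr f
      (IsManifold.chart_mem_maximalAtlas (I := 𝓡 n) (n := ∞) (f^[i] x))
      (IsManifold.chart_mem_maximalAtlas (I := 𝓡 n) (n := ∞) (f (f^[i] x)))
      (mem_chart_source (V n) (f^[i] x)) (mem_chart_source (V n) (f (f^[i] x)))
      (hB.mem_nhds hx) one_pos
    obtain ⟨W2, hW2, U2, hU2, hf2, h2⟩ := ih (interior W1) isOpen_interior
      (mem_interior_iff_mem_nhds.2 hW1)
    refine ⟨W2, hW2, U1 ∩ U2, openInter hU1 hU2, ⟨hf1, hf2⟩, ?_⟩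
    intro g hg y hy
    rw [Function.iterate_succ_apply']
    exact (h1 g hg.1 _ (interior_subset (h2 g hg.2 y hy))).2.2.1

/-- the chain rule -/
theorem chain {n : ℕ} {N : Type u} [TopologicalSpace N] [ChartedSpace (V n) N]
    {r : ℕ∞} (hr : 1 ≤ r) (g : DiffM n N r) (i : ℕ)
    {φ χ ψ : OpenPartialHomeomorph N (V n)}
    (hφ : φ ∈ IsManifold.maximalAtlas (𝓡 n) ∞ N) (hχ : χ ∈ IsManifold.maximalAtlas (𝓡 n) ∞ N)
    (hψ : ψ ∈ IsManifold.maximalAtlas (𝓡 n) ∞ N) {y : N} (hy : y ∈ φ.source)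
    (h1 : g^[i] y ∈ χ.source) (h2 : g (g^[i] y) ∈ ψ.source) :
    fderiv ℝ (fun v => ψ (g^[i + 1] (φ.symm v))) (φ y) =
      (fderiv ℝ (fun v => ψ (g (χ.symm v))) (χ (g^[i] y))) ∘L
        (fderiv ℝ (fun v => χ (g^[i] (φ.symm v))) (φ y)) := by
  have ht : φ y ∈ φ.target := φ.map_source hy
  have hsy : φ.symm (φ y) = y := φ.left_inv hy
  have d1 : DifferentiableAt ℝ (fun v => χ (g^[i] (φ.symm v))) (φ y) :=
    (cdm (smooth_iter hr g i) hφ hχ ht (by rw [hsy]; exact h1)).differentiableAt (by norm_num)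
  have d2 : DifferentiableAt ℝ (fun v => ψ (g (χ.symm v))) (χ (g^[i] y)) :=
    (cdm (smooth1 hr g) hχ hψ (χ.map_source h1) (by
      rw [χ.left_inv h1]
      exact h2)).differentiableAt (by norm_num)
  have heq : (fun v => ψ (g^[i + 1] (φ.symm v))) =ᶠ[𝓝 (φ y)]
      (fun v => ψ (g (χ.symm v))) ∘ (fun v => χ (g^[i] (φ.symm v))) := by
    have c1 : ContinuousAt (fun v => g^[i] (φ.symm v)) (φ y) :=
      ContinuousAt.comp (g := g^[i]) (f := φ.symm) (smooth_iter hr g i).continuous.continuousAt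
        (φ.continuousAt_symm ht)
    have c2 : ∀ᶠ v in 𝓝 (φ y), g^[i] (φ.symm v) ∈ χ.source := by
      apply c1.eventually
      apply χ.open_source.mem_nhds
      show g^[i] (φ.symm (φ y)) ∈ χ.source
      rw [hsy]
      exact h1
    filter_upwards [c2] with v hv
    show ψ (g^[i + 1] (φ.symm v)) = ψ (g (χ.symm (χ (g^[i] (φ.symm v)))))
    rw [χ.left_inv hv, Function.iterate_succ_apply']
  rw [heq.fderiv_eq, fderiv_comp (φ y) (by rw [hsy]; exact d2) d1, hsy]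

/-- the second part -/
theorem part2 {n : ℕ} {N : Type u} [TopologicalSpace N] [T2Space N] [ChartedSpace (V n) N]
    [IsManifold (𝓡 n) ∞ N] {r : ℕ∞} (hr : 1 ≤ r) (f : DiffM n N r) (i : ℕ) (x : N)
    {φ : OpenPartialHomeomorph N (V n)} (hφ : φ ∈ IsManifold.maximalAtlas (𝓡 n) ∞ N)
    (hx : x ∈ φ.source) :
    ∀ ψ ∈ IsManifold.maximalAtlas (𝓡 n) ∞ N, f^[i] x ∈ ψ.source → ∀ ε : ℝ, 0 < ε →
      ∃ W ∈ 𝓝 x, ∃ U : Set (DiffM n N r), IsOpen[strongTop n N r] U ∧ f ∈ U ∧ ∀ g ∈ U, ∀ y ∈ W,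
        y ∈ φ.source ∧ g^[i] y ∈ ψ.source ∧
        ‖fderiv ℝ (fun v => ψ (g^[i] (φ.symm v))) (φ y) -
          fderiv ℝ (fun v => ψ (f^[i] (φ.symm v))) (φ x)‖ < ε := by
  induction i with
  | zero =>
    intro ψ hψ hxψ ε hε
    have hxψ' : x ∈ ψ.source := hxψ
    have hcd : ContDiffAt ℝ 1 (fun v => ψ (φ.symm v)) (φ x) := by
      refine cdm (h := fun y : N => y) contMDiff_id hφ hψ (φ.map_source hx) ?_
      show φ.symm (φ x) ∈ ψ.source
      rw [φ.left_inv hx]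
      exact hxψ'
    have c1 : ContinuousAt (fderiv ℝ (fun v => ψ (φ.symm v))) (φ x) :=
      (hcd.fderiv_right (m := 0) (by norm_num)).continuousAt
    have c2 : ContinuousAt (fun y => fderiv ℝ (fun v => ψ (φ.symm v)) (φ y)) x :=
      ContinuousAt.comp (g := fderiv ℝ (fun v => ψ (φ.symm v))) (f := φ) c1 (φ.continuousAt hx)
    have c3 := c2.preimage_mem_nhds (ball_mem_nhds _ hε)
    refine ⟨_, inter_mem (inter_mem (φ.open_source.mem_nhds hx) (ψ.open_source.mem_nhds hxψ')) c3,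
      univ, @isOpen_univ _ (strongTop n N r), mem_univ _, ?_⟩
    rintro g - y ⟨⟨h1, h2⟩, h3⟩
    refine ⟨h1, h2, ?_⟩
    rw [mem_preimage, mem_ball, dist_eq_norm] at h3
    exact h3
  | succ i ih =>
    intro ψ hψ hxψ ε hε
    rw [Function.iterate_succ_apply'] at hxψ
    obtain ⟨χ, hχ, hzχ⟩ : ∃ χ ∈ IsManifold.maximalAtlas (𝓡 n) ∞ N, f^[i] x ∈ χ.source :=
      ⟨_, IsManifold.chart_mem_maximalAtlas (I := 𝓡 n) (n := ∞) (f^[i] x),
        mem_chart_source (V n) (f^[i] x)⟩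
    obtain ⟨A, hA⟩ : ∃ A, A = fderiv ℝ (fun v => ψ (f (χ.symm v))) (χ (f^[i] x)) := ⟨_, rfl⟩
    obtain ⟨B, hB⟩ : ∃ B, B = fderiv ℝ (fun v => χ (f^[i] (φ.symm v))) (φ x) := ⟨_, rfl⟩
    obtain ⟨δ, hδd⟩ : ∃ δ : ℝ, δ = min 1 (ε / (‖A‖ + ‖B‖ + 2)) := ⟨_, rfl⟩
    have hAB : 0 < ‖A‖ + ‖B‖ + 2 := by positivity
    have hδ : 0 < δ := by
      rw [hδd]
      exact lt_min one_pos (by positivity)
    have hδ1 : δ ≤ 1 := by
      rw [hδd]
      exact min_le_left _ _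
    have hδ2 : δ * (‖A‖ + ‖B‖ + 2) ≤ ε := by
      rw [← le_div_iff₀ hAB, hδd]
      exact min_le_right _ _
    obtain ⟨W1, hW1, U1, hU1, hf1, h1⟩ := one hr f hχ hψ hzχ hxψ univ_mem hδ
    obtain ⟨W2, hW2, U2, hU2, hf2, h2⟩ := ih χ hχ hzχ δ hδ
    obtain ⟨W3, hW3, U3, hU3, hf3, h3⟩ := part1 hr f i x (interior W1) isOpen_interior
      (mem_interior_iff_mem_nhds.2 hW1)
    refine ⟨W2 ∩ W3, inter_mem hW2 hW3, U1 ∩ (U2 ∩ U3),
      openInter hU1 (openInter hU2 hU3),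
      ⟨hf1, hf2, hf3⟩, ?_⟩
    rintro g ⟨hg1, hg2, hg3⟩ y ⟨hy2, hy3⟩
    obtain ⟨a1, a2, a3⟩ := h2 g hg2 y hy2
    obtain ⟨b1, b2, -, b4⟩ := h1 g hg1 _ (interior_subset (h3 g hg3 y hy3))
    refine ⟨a1, by rw [Function.iterate_succ_apply']; exact b2, ?_⟩
    rw [chain hr g i hφ hχ hψ a1 b1 b2, chain hr f i hφ hχ hψ hx hzχ hxψ, ← hA, ← hB]
    rw [← hA] at b4
    rw [← hB] at a3
    obtain ⟨A', hA'⟩ : ∃ A', A' = fderiv ℝ (fun v => ψ (g (χ.symm v))) (χ (g^[i] y)) := ⟨_, rfl⟩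
    obtain ⟨B', hB'⟩ : ∃ B', B' = fderiv ℝ (fun v => χ (g^[i] (φ.symm v))) (φ y) := ⟨_, rfl⟩
    rw [← hA'] at b4 ⊢
    rw [← hB'] at a3 ⊢
    have e1 : A' ∘L B' - A ∘L B = (A' - A) ∘L B' + A ∘L (B' - B) := by
      ext v
      simp
    have e2 : ‖B'‖ ≤ ‖B‖ + 1 := by
      have : B' = B + (B' - B) := by abel
      rw [this]
      exact (norm_add_le _ _).trans (by linarith)
    rw [e1]
    have e3 : ‖(A' - A) ∘L B'‖ ≤ δ * (‖B‖ + 1) :=
      (ContinuousLinearMap.opNorm_comp_le _ _).trans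
        (mul_le_mul b4.le e2 (norm_nonneg _) hδ.le)
    have e4 : ‖A ∘L (B' - B)‖ ≤ ‖A‖ * δ :=
      (ContinuousLinearMap.opNorm_comp_le _ _).trans
        (mul_le_mul_of_nonneg_left a3.le (norm_nonneg _))
    refine (norm_add_le _ _).trans_lt ?_
    nlinarith

theorem main : S_CI := by
  intro n N _ _ _ _ _ r hr f i x
  refine ⟨part1 hr f i x, ?_⟩
  intro φ hφ ψ hψ hx hxψ ε hε
  exact part2 hr f i x hφ hx ψ hψ hxψ ε hε

end Pool.Agent.Y675.CO.CI
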